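import Pool.Agent.Mg.F93dc40.Ge341e4

namespace Pool.Agent.Results.MP_93dc40_an.AllDegrees

open Pool.Agent.MP_93dc40_an

/-- Every `d ≥ 2`. Binary matrices with two levels and equitable quotient `L * [[A, b], [0, c]]`,
where `A * b ^ (d - 1) / c ^ d` is large in terms of `d` and `L` is a multiple of some `L₀`, have the
tree-shift entropy of an irreducible binary matrix. -/
theorem result (d : ℕ) (hd : 2 ≤ d) : ∃ B : ℕ, ∀ A b c : ℕ, 1 ≤ c → B * c ^ d ≤ A * b ^ (d - 1) →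
    ∃ L₀ : ℕ, 1 ≤ L₀ ∧ ∀ L, 1 ≤ L → L₀ ∣ L →
      ∀ (k : ℕ) (M : Matrix (Fin k) (Fin k) ℕ) (U : Finset (Fin k)), IsBinary M → U.Nonempty →
        (∀ i ∈ U, ∑ j ∈ U, M i j = L * A ∧ ∑ j ∈ Uᶜ, M i j = L * b) →
        (∀ i ∉ U, ∑ j ∈ U, M i j = 0 ∧ ∑ j ∈ Uᶜ, M i j = L * c) →
        ∃ (k' : ℕ) (N : Matrix (Fin k') (Fin k') ℕ) (h : ℝ),
          IsBinary N ∧ IsIrred N ∧ HasEntropy d M h ∧ HasEntropy d N h :=
  allD d hd

end Pool.Agent.Results.MP_93dc40_an.AllDegrees
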