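import Pool.Agent.Mg.F93dc40.G3efe81

namespace Pool.Agent.Results.MP_93dc40_an.StableBlocks

open Pool.Agent.MP_93dc40_an

/-- Binary tree. `Q` is a block triangular pattern with an irreducible top block `U` and an
arbitrary lower block without zero rows. Under a linear condition on `Q`, every binary matrix whose
equitable quotient is `L * Q`, for `L` a multiple of some `L₀`, has the tree-shift entropy of an
irreducible binary matrix. -/
theorem result {m : ℕ} (Q : Matrix (Fin m) (Fin m) ℕ) (U : Finset (Fin m)) (lam Lam : Fin m → ℚ)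
    (hU : U.Nonempty) (irr : ∀ i ∈ U, ∀ j ∈ U, ∃ n, 1 ≤ n ∧ 0 < (Q ^ n) i j)
    (low : ∀ z ∉ U, (∀ j ∈ U, Q z j = 0) ∧ 0 < ∑ j, Q z j)
    (hl : ∀ i, 0 ≤ lam i) (hL : ∀ i, 0 < Lam i)
    (h1 : ∀ i ∈ U, ∀ z ∉ U, ∀ j, lam i * Q z j ≤ Q i j)
    (h2 : ∀ i ∈ U, ∀ z ∉ U,
      Lam i * ∑ j, (Q z j : ℚ) < ∑ j ∈ U, (Q i j : ℚ) * (lam j * Lam j)) :
    ∃ L₀ : ℕ, 1 ≤ L₀ ∧ ∀ L, 1 ≤ L → L₀ ∣ L →
      ∀ (k : ℕ) (M : Matrix (Fin k) (Fin k) ℕ) (π : Fin k → Fin m), IsBinary M →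
        Function.Surjective π → (∀ v j, ∑ w with π w = j, M v w = L * Q (π v) j) →
        ∃ (k' : ℕ) (N : Matrix (Fin k') (Fin k') ℕ) (h : ℝ),
          IsBinary N ∧ IsIrred N ∧ HasEntropy 2 M h ∧ HasEntropy 2 N h :=
  stable Q U lam Lam hU irr low hl hL h1 h2

end Pool.Agent.Results.MP_93dc40_an.StableBlocks
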