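import Pool.Agent.Mg.F93dc40.Ga5cba9

namespace Pool.Agent.Results.MP_93dc40_an.StableOdd

open Pool.Agent.MP_93dc40_an

/-- Odd `d ≥ 3`. For every entropy `h` of a hom Markov tree-shift there is `L₀ ≥ 1` such that
`h + log L` is the entropy of an irreducible one for every positive multiple `L` of `L₀`. -/
theorem result (d : ℕ) (hd : 3 ≤ d) (ho : Odd d) {k : ℕ} (M : Matrix (Fin k) (Fin k) ℕ)
    (hM : IsBinary M) (h : ℝ) (hh : HasEntropy d M h) :
    ∃ L₀ : ℕ, 1 ≤ L₀ ∧ ∀ L : ℕ, 1 ≤ L → L₀ ∣ L → ∃ (k' : ℕ) (N : Matrix (Fin k') (Fin k') ℕ),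
      IsBinary N ∧ IsIrred N ∧ HasEntropy d N (h + Real.log L) :=
  St.final_of d (by omega) (St.quotient_form d hd ho) M hM h hh

end Pool.Agent.Results.MP_93dc40_an.StableOdd
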