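import Pool.Agent.Mg.F93dc40.G04530b

namespace Pool.Agent.Results.MP_93dc40_an.TwoLevel

open Pool.Agent.MP_93dc40_an

/-- Binary tree. A binary matrix with an irreducible top block `U` (at most `K` successors inside
`U`, row sums `D`) over a closed lower block with row sums `c` has, for `D` large in terms of `K`
and `c`, the same tree-shift entropy as some irreducible binary matrix. -/
theorem result (K c : ℕ) (hc : 1 ≤ c) : ∃ D₀ : ℕ, ∀ D ≥ D₀,
    ∀ (k : ℕ) (M : Matrix (Fin k) (Fin k) ℕ) (U : Finset (Fin k)), IsBinary M → U.Nonempty →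
      (∀ i ∈ U, ∀ j ∈ U, ∃ n, 1 ≤ n ∧ 0 < (M ^ n) i j) →
      (∀ i ∈ U, ∑ j, M i j = D ∧ ∑ j ∈ U, M i j ≤ K) →
      (∀ i ∉ U, ∑ j, M i j = c ∧ ∀ j ∈ U, M i j = 0) →
      ∃ (k' : ℕ) (N : Matrix (Fin k') (Fin k') ℕ) (h : ℝ),
        IsBinary N ∧ IsIrred N ∧ HasEntropy 2 M h ∧ HasEntropy 2 N h :=
  main K c hc

end Pool.Agent.Results.MP_93dc40_an.TwoLevel
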